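import Mathlib
import Pool.Agent.Helper133.SM.Stmt2
import Pool.Agent.Helper133.SM.Main
import Pool.Agent.Helper133.SM.NS

set_option autoImplicit false

namespace Pool.Agent.Results.MP_9c3fb4_an.Full

open Pool.Agent.Helper278 Pool.Agent.Helper278.CE Pool.Agent.Helper133.SM

universe w

/-- (1) Being super McDuff is invariant under elementary equivalence of separable II₁ factors (and
it does not depend on the nonprincipal ultrafilter used in its definition). (2) Without separability
the implication fails: there are a separable super McDuff factor `N` and a II₁ factor `M`
elementarily equivalent to `N` that is not super McDuff for any nonprincipal ultrafilter. -/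
theorem result : SeparableInvariance.{w} ∧ FailsNonseparably :=
  ⟨fun U V hU hV H K _ _ _ _ _ _ N τ M σ hN hM hNs hMs he hs =>
    super_transfer N τ M σ hN hM hNs hMs he U V hU hV hs, nonseparable⟩

end Pool.Agent.Results.MP_9c3fb4_an.Full
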