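import Mathlib
import Pool.Agent.Helper133.SM.Defs
import Pool.Agent.Helper133.SM.Main

set_option autoImplicit false

namespace Pool.Agent.Results.MP_9c3fb4_an.Separable

open Pool.Agent.Helper278 Pool.Agent.Helper278.CE Pool.Agent.Helper133.SM

universe w

/-- Being super McDuff is invariant under elementary equivalence of separable II₁ factors (and it
does not depend on the nonprincipal ultrafilter used in its definition). -/
theorem result (U V : Ultrafilter ℕ) (hU : ∀ n, {n} ∉ U) (hV : ∀ n, {n} ∉ V)
    (H K : Type) [NormedAddCommGroup H] [InnerProductSpace ℂ H] [CompleteSpace H]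
    [NormedAddCommGroup K] [InnerProductSpace ℂ K] [CompleteSpace K]
    (N : VonNeumannAlgebra H) (τ : Elt N → ℂ) (M : VonNeumannAlgebra K) (σ : Elt M → ℂ)
    (hN : IsIIOneFactor N τ) (hM : IsIIOneFactor M σ) (hNsep : IsTwoSeparable τ)
    (hMsep : IsTwoSeparable σ) (hequiv : ElemEquiv.{w} τ σ) (hs : IsSuperMcDuff U τ) :
    IsSuperMcDuff V σ :=
  super_transfer N τ M σ hN hM hNsep hMsep hequiv U V hU hV hs

end Pool.Agent.Results.MP_9c3fb4_an.Separable
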